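import Pool.Agent.W5h55.BT.Bochner

set_option autoImplicit false

/-!
# Bochner's tube theorem in product coordinates

The theorem `Pool.Agent.W5h55.BT.bochner` for functions on `(Fin k → ℂ) × ℂ`.
-/

namespace Pool.Agent.W5h18.BT

/-- The coordinates `Option (Fin k) → 𝕜` as a product. -/
def eL (𝕜 : Type) [Field 𝕜] (k : ℕ) : (Option (Fin k) → 𝕜) ≃ₗ[𝕜] (Fin k → 𝕜) × 𝕜 where
  toFun x := (fun i => x (some i), x none)
  invFun p := fun o => Option.elim o p.2 p.1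
  map_add' x y := rfl
  map_smul' c x := rfl
  left_inv x := by
    funext o
    cases o <;> rfl
  right_inv p := rfl

theorem norm_eL (k : ℕ) (x : Option (Fin k) → ℝ) : ‖eL ℝ k x‖ = ‖x‖ := by
  refine le_antisymm ?_ ?_
  · rw [Prod.norm_def]
    refine max_le ?_ ?_
    · rw [pi_norm_le_iff_of_nonneg (norm_nonneg _)]
      intro i
      exact norm_le_pi_norm x (some i)
    · exact norm_le_pi_norm x none
  · rw [pi_norm_le_iff_of_nonneg (norm_nonneg _)]
    intro o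
    cases o with
    | none => exact norm_snd_le (eL ℝ k x)
    | some i => exact (norm_le_pi_norm (eL ℝ k x).1 i).trans (norm_fst_le (eL ℝ k x))

theorem convexHull_preimage_eL (k : ℕ) (U : Set ((Fin k → ℝ) × ℝ)) :
    convexHull ℝ (eL ℝ k ⁻¹' U) = eL ℝ k ⁻¹' (convexHull ℝ U) := by
  have h1 : ∀ S : Set ((Fin k → ℝ) × ℝ), eL ℝ k ⁻¹' S = (eL ℝ k).symm.toLinearMap '' S := by
    intro S
    exact ((eL ℝ k).toEquiv.image_symm_eq_preimage S).symm
  rw [h1, h1, LinearMap.image_convexHull]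

theorem bochner_prod (k : ℕ) (U : Set ((Fin k → ℝ) × ℝ)) (hU : IsOpen U) (hc : IsPreconnected U)
    (G : (Fin k → ℂ) × ℂ → ℂ)
    (hd : DifferentiableOn ℂ G {z | ((fun i => (z.1 i).re, z.2.re) : (Fin k → ℝ) × ℝ) ∈ U})
    (hb : ∀ K ⊆ U, IsCompact K → ∃ (C : ℝ) (N : ℕ), ∀ z : (Fin k → ℂ) × ℂ,
      ((fun i => (z.1 i).re, z.2.re) : (Fin k → ℝ) × ℝ) ∈ K →
        ‖G z‖ ≤ C * (1 + ‖((fun i => (z.1 i).im, z.2.im) : (Fin k → ℝ) × ℝ)‖) ^ N) :
    ∃ H : (Fin k → ℂ) × ℂ → ℂ,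
      DifferentiableOn ℂ H
        {z | ((fun i => (z.1 i).re, z.2.re) : (Fin k → ℝ) × ℝ) ∈ convexHull ℝ U} ∧
      (∀ K ⊆ convexHull ℝ U, IsCompact K → ∃ (C : ℝ) (N : ℕ), ∀ z : (Fin k → ℂ) × ℂ,
        ((fun i => (z.1 i).re, z.2.re) : (Fin k → ℝ) × ℝ) ∈ K →
          ‖H z‖ ≤ C * (1 + ‖((fun i => (z.1 i).im, z.2.im) : (Fin k → ℝ) × ℝ)‖) ^ N) ∧
      ∀ z : (Fin k → ℂ) × ℂ, ((fun i => (z.1 i).re, z.2.re) : (Fin k → ℝ) × ℝ) ∈ U →
        H z = G z := by
  set e := (eL ℝ k).toContinuousLinearEquiv with he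
  set c := (eL ℂ k).toContinuousLinearEquiv with hcdef
  have heapp : ∀ x, e x = eL ℝ k x := fun x => rfl
  have hre : ∀ z : Option (Fin k) → ℂ,
      ((fun i => ((c z).1 i).re, (c z).2.re) : (Fin k → ℝ) × ℝ) = eL ℝ k (fun j => (z j).re) :=
    fun z => rfl
  have him : ∀ z : Option (Fin k) → ℂ,
      ((fun i => ((c z).1 i).im, (c z).2.im) : (Fin k → ℝ) × ℝ) = eL ℝ k (fun j => (z j).im) :=
    fun z => rfl
  have hre' : ∀ z : (Fin k → ℂ) × ℂ,
      eL ℝ k (fun j => (c.symm z j).re) = ((fun i => (z.1 i).re, z.2.re) : (Fin k → ℝ) × ℝ) :=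
    fun z => rfl
  have him' : ∀ z : (Fin k → ℂ) × ℂ,
      eL ℝ k (fun j => (c.symm z j).im) = ((fun i => (z.1 i).im, z.2.im) : (Fin k → ℝ) × ℝ) :=
    fun z => rfl
  obtain ⟨G', hG1, hG2, hG3⟩ := Pool.Agent.W5h55.BT.bochner (eL ℝ k ⁻¹' U)
    (hU.preimage e.continuous) (e.toHomeomorph.isPreconnected_preimage.2 hc) (fun z => G (c z))
    (hd.comp c.differentiable.differentiableOn fun z hz => by
      rw [Set.mem_ofPred_eq, hre]
      exact hz)
    (fun K hK hKW => by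
      obtain ⟨C, N, hCN⟩ := hb (eL ℝ k '' K) (by
        rintro _ ⟨x, hx, rfl⟩
        exact hKW hx) (hK.image e.continuous)
      refine ⟨C, N, fun z hz => ?_⟩
      have := hCN (c z) (by
        rw [hre]
        exact Set.mem_image_of_mem _ hz)
      rwa [him, norm_eL] at this)
  rw [convexHull_preimage_eL] at hG1 hG2
  refine ⟨fun z => G' (c.symm z), ?_, ?_, ?_⟩
  · refine hG1.comp c.symm.differentiable.differentiableOn fun z hz => ?_
    rw [Set.mem_ofPred_eq, Set.mem_preimage, hre']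
    exact hz
  · intro K hKU hK
    obtain ⟨C, N, hCN⟩ := hG2 (eL ℝ k ⁻¹' K) (e.toHomeomorph.isCompact_preimage.2 hK)
      (Set.preimage_mono hKU)
    refine ⟨C, N, fun z hz => ?_⟩
    have := hCN (c.symm z) (by
      rw [Set.mem_preimage, hre']
      exact hz)
    rwa [← norm_eL, him'] at this
  · intro z hz
    have := hG3 (x := c.symm z) (by
      rw [Set.mem_ofPred_eq, Set.mem_preimage, hre']
      exact hz)
    simp only [ContinuousLinearEquiv.apply_symm_apply] at this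
    exact this.symm

end Pool.Agent.W5h18.BT

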